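import Pool.Agent.H550U.VS.Run
import Pool.Agent.H550U.Chain

/-!
# Affine forms along a run
-/

namespace Pool.Agent.H550U.VS

open Finset Pool.Agent.H550U

/-- The forms along a run. -/
theorem run_chain {m j : ℕ} {q : ℕ → ℕ} (h : IsRun m j q) :
    ∃ U : Finset ℕ, U ⊆ (range (m - 1)).image q ∧ #U ≤ j ∧ ∃ l ∈ Ch U j,
      l.map (val (q (m - 1) - 1)) = (List.range (j + 1)).reverse.map fun i => q (m - 1 + i) - 1 := by
  classical
  induction j with
  | zero =>
    refine ⟨∅, empty_subset _, by simp, [(1, 0)], by simp [Ch], ?_⟩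
    simp [val]
  | succ j ih =>
    obtain ⟨U, hU, hUc, l, hl, hmap⟩ := ih (h.mono (Nat.le_succ j))
    obtain ⟨i, hi, he⟩ := h.step (n := m - 1 + j) (by omega) (by omega)
    have hm := h.1
    have hlen := Ch_length hl
    obtain ⟨x, t, rfl⟩ : ∃ x t, l = x :: t := by
      cases l with
      | nil => simp at hlen
      | cons x t => exact ⟨x, t, rfl⟩
    have hx : val (q (m - 1) - 1) x = q (m - 1 + j) - 1 := by
      rw [List.range_succ, List.reverse_append, List.reverse_singleton, List.singleton_append, List.map_cons,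
        List.map_cons] at hmap
      exact (List.cons_eq_cons.mp hmap).1
    have hq1 := (h.prime (n := m - 1 + j) (by omega)).one_lt
    have hqi := (h.prime (n := i) (by omega)).one_lt
    have hgoal : ∀ (V : Finset ℕ) (f : ℕ × ℕ), V ⊆ (range (m - 1)).image q → #V ≤ j + 1 → U ⊆ V →
        f ∈ nextForms V (x :: t) → val (q (m - 1) - 1) f = q (m - 1 + (j + 1)) - 1 →
        ∃ U : Finset ℕ, U ⊆ (range (m - 1)).image q ∧ #U ≤ j + 1 ∧ ∃ l ∈ Ch U (j + 1),
          l.map (val (q (m - 1) - 1)) = (List.range (j + 1 + 1)).reverse.map fun i => q (m - 1 + i) - 1 := by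
      intro V f hV hVc hUV hf hv
      refine ⟨V, hV, hVc, f :: x :: t, ?_, ?_⟩
      · rw [Ch, mem_biUnion]
        exact ⟨x :: t, Ch_mono hUV j hl, mem_image.mpr ⟨f, hf, rfl⟩⟩
      · rw [List.range_succ, List.reverse_append, List.reverse_singleton, List.singleton_append, List.map_cons,
          hmap, hv]
        rfl
    rcases Nat.lt_or_ge i (m - 1) with h1 | h1
    · refine hgoal (insert (q i) U) (x.1, x.2 + (q i - 1)) ?_ ?_ (subset_insert _ _) ?_ ?_
      · exact insert_subset (mem_image_of_mem _ (mem_range.mpr h1)) hU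
      · exact (card_insert_le _ _).trans (by omega)
      · rw [nextForms, mem_union, mem_image]
        exact Or.inl ⟨q i, mem_insert_self _ _, rfl⟩
      · rw [show m - 1 + (j + 1) = m - 1 + j + 1 by ring, he]
        unfold val at hx ⊢
        simp only
        omega
    · obtain ⟨b, hb⟩ : ∃ b, i = m - 1 + b := ⟨i - (m - 1), by omega⟩
      have hmem : q i - 1 ∈ (x :: t).map (val (q (m - 1) - 1)) := by
        rw [hmap, List.mem_map]
        exact ⟨b, by rw [List.mem_reverse, List.mem_range]; omega, by rw [hb]⟩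
      obtain ⟨g, hg, hgv⟩ := List.mem_map.mp hmem
      refine hgoal U (x.1 + g.1, x.2 + g.2) hU (by omega) subset_rfl ?_ ?_
      · rw [nextForms, mem_union, mem_image, mem_image]
        exact Or.inr ⟨g, List.mem_toFinset.mpr hg, rfl⟩
      · rw [show m - 1 + (j + 1) = m - 1 + j + 1 by ring, he]
        unfold val at hx hgv ⊢
        simp only
        have : (x.1 + g.1) * (q (m - 1) - 1) = x.1 * (q (m - 1) - 1) + g.1 * (q (m - 1) - 1) := by ring
        omega

/-- along a run, (term minus one) at most doubles at each step -/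
theorem IsRun.doubling {m L : ℕ} {q : ℕ → ℕ} (h : IsRun m L q) {i : ℕ} (hi : i ≤ L) :
    q (m - 1 + i) - 1 ≤ 2 ^ i * (q (m - 1) - 1) := by
  induction i with
  | zero => simp
  | succ i ih =>
    obtain ⟨l, hl, he⟩ := h.step (n := m - 1 + i) (by omega) (by omega)
    have hm := h.1
    have h1 := h.le hl.le (by omega)
    have h2 := ih (by omega)
    have h3 := (h.prime (n := m - 1 + i) (by omega)).one_lt
    have hpow : 2 ^ (i + 1) * (q (m - 1) - 1) = 2 * (2 ^ i * (q (m - 1) - 1)) := by ring
    rw [show m - 1 + (i + 1) = m - 1 + i + 1 by ring, hpow]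
    omega

end Pool.Agent.H550U.VS
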