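import Pool.Agent.H550U.Run

/-!
# Finite runs of Ulam's greedy process with partner index `i < n`
-/

namespace Pool.Agent.H550U.VS

open Finset Pool.Agent.H550U

/-- `q 0 < ... < q (m - 1)` are primes, and the process started with them makes (at least) `L` further steps, which give
`q m, ..., q (m + L - 1)`. -/
def IsRun (m L : ℕ) (q : ℕ → ℕ) : Prop :=
  1 ≤ m ∧ (∀ i, i < m → (q i).Prime) ∧ (∀ i j, i < j → j < m → q i < q j) ∧
    ∀ n, m - 1 ≤ n → n < m - 1 + L →
      (q (n + 1)).Prime ∧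
      (∃ i, i < n ∧ q (n + 1) = q n + q i - 1) ∧
      ∀ p : ℕ, p.Prime → (∃ i, i < n ∧ p = q n + q i - 1) → q (n + 1) ≤ p

/-- Ulam's process started with the elements of `S` (in increasing order) makes at least `L` further steps. -/
def Lasts (S : Finset ℕ) (L : ℕ) : Prop := ∃ q : ℕ → ℕ, IsRun S.card L q ∧ S = (range S.card).image q

variable {m L : ℕ} {q : ℕ → ℕ}

theorem IsRun.mono (h : IsRun m L q) {L' : ℕ} (hL : L' ≤ L) : IsRun m L' q :=
  ⟨h.1, h.2.1, h.2.2.1, fun n hn hn' => h.2.2.2 n hn (by omega)⟩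

theorem Lasts.mono {S : Finset ℕ} (h : Lasts S L) {L' : ℕ} (hL : L' ≤ L) : Lasts S L' := by
  obtain ⟨q, hq, hS⟩ := h
  exact ⟨q, hq.mono hL, hS⟩

theorem IsRun.prime (h : IsRun m L q) {n : ℕ} (hn : n < m + L) : (q n).Prime := by
  obtain ⟨hm, h1, -, h3⟩ := h
  by_cases hn' : n < m
  · exact h1 n hn'
  · obtain ⟨k, rfl⟩ : ∃ k, n = k + 1 := ⟨n - 1, by omega⟩
    exact (h3 k (by omega) (by omega)).1

theorem IsRun.step (h : IsRun m L q) {n : ℕ} (hn : m - 1 ≤ n) (hn' : n < m - 1 + L) :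
    ∃ i, i < n ∧ q (n + 1) = q n + (q i - 1) := by
  obtain ⟨i, hi, he⟩ := (h.2.2.2 n hn hn').2.1
  have := (h.prime (n := i) (by omega)).one_lt
  exact ⟨i, hi, by omega⟩

theorem IsRun.lt_succ (h : IsRun m L q) {n : ℕ} (hn : n + 1 < m + L) : q n < q (n + 1) := by
  by_cases hn' : n + 1 < m
  · exact h.2.2.1 n (n + 1) (by omega) hn'
  · obtain ⟨i, hi, he⟩ := h.step (n := n) (by omega) (by omega)
    have := (h.prime (n := i) (by omega)).one_lt
    omega

theorem IsRun.lt (h : IsRun m L q) {i j : ℕ} (hij : i < j) (hj : j < m + L) : q i < q j := by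
  induction j with
  | zero => omega
  | succ j ih =>
    have h1 := h.lt_succ hj
    rcases Nat.lt_or_ge i j with h2 | h2
    · exact (ih h2 (by omega)).trans h1
    · have : i = j := by omega
      rw [this]; exact h1

theorem IsRun.le (h : IsRun m L q) {i j : ℕ} (hij : i ≤ j) (hj : j < m + L) : q i ≤ q j := by
  rcases Nat.eq_or_lt_of_le hij with rfl | h1
  · exact le_rfl
  · exact (h.lt h1 hj).le

/-- zero steps are always possible -/
theorem lasts_zero {S : Finset ℕ} (hS : S.Nonempty) (hp : ∀ p ∈ S, p.Prime) : Lasts S 0 := by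
  classical
  let f : ℕ → ℕ := fun i => if h : i < S.card then S.orderEmbOfFin rfl ⟨i, h⟩ else 0
  have hf : ∀ i (h : i < S.card), f i = S.orderEmbOfFin rfl ⟨i, h⟩ := fun i h => by simp only [f, dif_pos h]
  refine ⟨f, ⟨hS.card_pos, fun i hi => ?_, fun i j hij hj => ?_, fun n h1 h2 => by omega⟩, ?_⟩
  · rw [hf i hi]; exact hp _ (orderEmbOfFin_mem _ _ _)
  · rw [hf i (by omega), hf j hj]
    exact (S.orderEmbOfFin rfl).strictMono hij
  · ext p
    rw [mem_image]
    constructor
    · intro h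
      have h1 : p ∈ Set.range (S.orderEmbOfFin rfl) := by rw [range_orderEmbOfFin]; exact h
      obtain ⟨i, rfl⟩ := h1
      exact ⟨i, mem_range.mpr i.isLt, hf i i.isLt⟩
    · rintro ⟨i, hi, rfl⟩
      rw [hf i (mem_range.mp hi)]
      exact orderEmbOfFin_mem _ _ _

/-- one more step -/
theorem IsRun.extend (h : IsRun m L q) {i : ℕ} (hi : i < m - 1 + L) (hp : (q (m - 1 + L) + q i - 1).Prime) :
    ∃ q', IsRun m (L + 1) q' ∧ ∀ n, n < m + L → q' n = q n := by
  classical
  have hm := h.1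
  have hex : ∃ p, p.Prime ∧ ∃ i, i < m - 1 + L ∧ p = q (m - 1 + L) + q i - 1 := ⟨_, hp, i, hi, rfl⟩
  have hs := Nat.find_spec hex
  have hmin : ∀ p, (p.Prime ∧ ∃ i, i < m - 1 + L ∧ p = q (m - 1 + L) + q i - 1) → Nat.find hex ≤ p :=
    fun p hp => Nat.find_min' hex hp
  obtain ⟨g, hg1, hg2⟩ : ∃ g : ℕ → ℕ, g (m + L) = Nat.find hex ∧ ∀ n, n ≠ m + L → g n = q n :=
    ⟨fun n => if n = m + L then Nat.find hex else q n, if_pos rfl, fun n hn => if_neg hn⟩
  refine ⟨g, ⟨hm, ?_, ?_, ?_⟩, fun n hn => hg2 n (by omega)⟩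
  · intro n hn
    rw [hg2 n (by omega)]
    exact h.2.1 n hn
  · intro a b hab hb
    rw [hg2 a (by omega), hg2 b (by omega)]
    exact h.2.2.1 a b hab hb
  · intro n hn hn'
    rcases Nat.lt_or_ge n (m - 1 + L) with h1 | h1
    · have h2 := h.2.2.2 n hn h1
      rw [hg2 (n + 1) (by omega), hg2 n (by omega)]
      refine ⟨h2.1, ?_, ?_⟩
      · obtain ⟨i, hi, he⟩ := h2.2.1
        exact ⟨i, hi, by rw [hg2 i (by omega)]; exact he⟩
      · rintro p hp ⟨i, hi, he⟩
        rw [hg2 i (by omega)] at he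
        exact h2.2.2 p hp ⟨i, hi, he⟩
    · obtain rfl : n = m - 1 + L := by omega
      rw [show m - 1 + L + 1 = m + L by omega, hg1, hg2 (m - 1 + L) (by omega)]
      refine ⟨hs.1, ?_, ?_⟩
      · obtain ⟨i, hi, he⟩ := hs.2
        exact ⟨i, hi, by rw [hg2 i (by omega)]; exact he⟩
      · rintro p hp ⟨i, hi, he⟩
        rw [hg2 i (by omega)] at he
        exact hmin p ⟨hp, i, hi, he⟩

/-- If the process does not last `L` steps, it is stuck at some earlier time. -/
theorem exists_stuck {S : Finset ℕ} (hS : S.Nonempty) (hp : ∀ p ∈ S, p.Prime) (hL : ¬ Lasts S L) :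
    ∃ j, j < L ∧ ∃ q, IsRun S.card j q ∧ S = (range S.card).image q ∧
      ∀ i, i < S.card - 1 + j → ¬ (q (S.card - 1 + j) + q i - 1).Prime := by
  induction L with
  | zero => exact absurd (lasts_zero hS hp) hL
  | succ L ih =>
    by_cases h : Lasts S L
    · obtain ⟨q, hq, hSq⟩ := h
      by_cases hst : ∀ i, i < S.card - 1 + L → ¬ (q (S.card - 1 + L) + q i - 1).Prime
      · exact ⟨L, by omega, q, hq, hSq, hst⟩
      · exfalso
        push Not at hst
        obtain ⟨i, hi, hpi⟩ := hst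
        obtain ⟨q', hq', he⟩ := hq.extend hi hpi
        refine hL ⟨q', hq', ?_⟩
        rw [hSq]
        have hc : ((range S.card).image q).card = S.card := by rw [← hSq]
        rw [hc]
        refine image_congr fun n hn => (he n ?_).symm
        have := mem_range.mp (mem_coe.mp hn)
        omega
    · obtain ⟨j, hj, h'⟩ := ih h
      exact ⟨j, by omega, h'⟩

end Pool.Agent.H550U.VS
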